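import Pool.Agent.PfA.Lower
import Pool.Agent.PfA.Upper

/-!
# Pfluger's inequality up to a factor which tends to one, and exactly for irregular growth

`T(r,f) = characteristic f ⊤ r`, `N(r,a) = logCounting f a r` (`⊤` is the value infinity), `K ρ` is
the infimum of `2 - ∑ δ(a,f)` over the entire functions of order `ρ`.

There is an absolute constant `C` such that for every meromorphic function `f` of non-integer order
`ρ > 1`, all `a ≠ b` in `ℂ ∪ {∞}` and every non-integer `t > 1` between the lower order and the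
order of `f`, with `s t = |sin (π t)|`,

`limsup (N(r,a) + N(r,b)) / T(r,f) ≥ (s t / t) / (s ρ / ρ) / (1 + C s t / √t) * K ρ`.

* For `t = ρ` the factor in front of `K ρ` is `1 / (1 + C s ρ / √ρ)`; it tends to `1` for `ρ → ∞` and
  for `ρ` tending to an integer.
* The factor is at least `1`, so that Pfluger's inequality itself holds, if
  `s ρ / ρ * (1 + C s t / √t) ≤ s t / t` for one such `t`.

Proof.  Let `u = log |f - a| - log |f - b|`, so that `T ≤ (‖u‖₁ + N) / 2 + O(1)` with
`N = N(r,a) + N(r,b)`.  If `N ≤ κ T` for large `r`, then at one-sided Pólya peaks `r` of order `t`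
the Fourier coefficients of `u` on the circle of radius `r` are at most `κ T(r) B n` with
`B n = t / (2 |n - t|) + O(1)`.  A trigonometric polynomial with coefficients of this size is
close to the real part of `exp (i p θ) * F (θ)`, `p` the integer nearest to `t`, `F` slowly
varying, hence its `L¹` norm is at most `2 √2 / π` times its `L²` norm plus `O(√t)`.  This gives
`‖u‖₁ ≤ κ T (2 t / s t + O(√t))`.  The functions with the zeros `- k ^ (1 / ρ)` show
`K ρ ≤ s ρ / ρ`.
-/

set_option autoImplicit false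

open Filter ValueDistribution Pool.Agent.H9.Pf Pool.Agent.PfA

namespace Pool.Agent.Results.MP_f2c8f8_an.AsymptoticPfluger

theorem result : ∃ C : ℝ, 0 < C ∧ ∀ ρ : ℝ, 1 < ρ → (∀ n : ℤ, (n : ℝ) ≠ ρ) → ∀ f : ℂ → ℂ,
    Meromorphic f → order f = (ρ : EReal) → ∀ a b : WithTop ℂ, a ≠ b →
    ∀ t : ℝ, 1 < t → (∀ n : ℤ, (n : ℝ) ≠ t) → lowerOrder f ≤ (t : EReal) → t ≤ ρ →
    (((|Real.sin (Real.pi * t)| / t) / (|Real.sin (Real.pi * ρ)| / ρ) /
      (1 + C * |Real.sin (Real.pi * t)| / √t) : ℝ) : EReal) * K ρ ≤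
    limsup (fun r : ℝ => (((logCounting f a r + logCounting f b r) /
        characteristic f ⊤ r : ℝ) : EReal)) atTop := by
  obtain ⟨C, hC, h⟩ := lower
  refine ⟨C, hC, fun ρ hρ hn f hf hord a b hab t ht hnt hlow htρ => ?_⟩
  have h1 := h f hf a b hab t ht.le hnt hlow (by rw [hord]; exact_mod_cast htρ)
  refine le_trans ?_ h1
  have hK := K_le hρ hn
  have ht0 : 0 < t := by linarith
  have hρ0 : 0 < ρ := by linarith
  have hsρ : 0 < sn ρ := sn_pos hn
  have hpos : 0 ≤ (|Real.sin (Real.pi * t)| / t) / (|Real.sin (Real.pi * ρ)| / ρ) /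
      (1 + C * |Real.sin (Real.pi * t)| / √t) := by positivity
  have hpos' : (0 : EReal) ≤ (((|Real.sin (Real.pi * t)| / t) / (|Real.sin (Real.pi * ρ)| / ρ) /
      (1 + C * |Real.sin (Real.pi * t)| / √t) : ℝ) : EReal) := by exact_mod_cast hpos
  refine (mul_le_mul_of_nonneg_left hK hpos').trans (le_of_eq ?_)
  rw [← EReal.coe_mul]
  congr 1
  unfold sn at hsρ ⊢
  have hne : |Real.sin (Real.pi * ρ)| ≠ 0 := hsρ.ne'
  have hden : 0 < 1 + C * |Real.sin (Real.pi * t)| / √t := by positivity
  field_simp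

end Pool.Agent.Results.MP_f2c8f8_an.AsymptoticPfluger
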