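import Mathlib
import Pool.Agent.H9.Pf.Example

/-!
# Equality in Pfluger's inequality does not force regular growth

For every `ρ` with `0 < ρ < 1/2` there is an entire function `f` of order `ρ` and lower order `0`
with `limsup (N(r,a) + N(r,∞)) / T(r,f) = K(ρ)` for every finite `a`.
-/

set_option autoImplicit false
open Filter ValueDistribution Pool.Agent.H9.Pf

namespace Pool.Agent.Results.MP_f2c8f8_an.EqualityWithoutRegularGrowth

theorem deficiency_finite {f : ℂ → ℂ} (hf : Differentiable ℂ f) {ρ : ℝ} (h0 : 0 < ρ)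
    (h1 : ρ < 1 / 2) (hρ : order f = (ρ : EReal)) (a : ℂ) : deficiency f (a : WithTop ℂ) = 0 := by
  rw [deficiency, limsup_N hf h0 h1 hρ a]
  have : ((1 : ℝ) : EReal) - ((1 : ℝ) : EReal) = ((1 - 1 : ℝ) : EReal) := (EReal.coe_sub 1 1).symm
  simpa using this

theorem deficiency_top {f : ℂ → ℂ} (hf : Differentiable ℂ f) : deficiency f ⊤ = 1 := by
  rw [deficiency, logCounting_top_eq hf]
  simp

theorem deficiencySum_eq {f : ℂ → ℂ} (hf : Differentiable ℂ f) {ρ : ℝ} (h0 : 0 < ρ)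
    (h1 : ρ < 1 / 2) (hρ : order f = (ρ : EReal)) : deficiencySum f = 1 := by
  rw [deficiencySum, tsum_eq_single ⊤]
  · rw [deficiency_top hf]; simp
  · intro a ha
    obtain ⟨b, rfl⟩ := WithTop.ne_top_iff_exists.1 ha
    rw [deficiency_finite hf h0 h1 hρ b]; simp

theorem K_eq {ρ : ℝ} (h0 : 0 < ρ) (h1 : ρ < 1 / 2) : K ρ = 1 := by
  have hne : Nonempty {f : ℂ → ℂ // Differentiable ℂ f ∧ order f = (ρ : EReal)} :=
    ⟨⟨ff ρ, ff_differentiable h0, order_ff h0⟩⟩
  have h : ∀ f : {f : ℂ → ℂ // Differentiable ℂ f ∧ order f = (ρ : EReal)},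
      2 - deficiencySum f.1 = (1 : EReal) := by
    rintro ⟨f, hf, hρ⟩
    rw [deficiencySum_eq hf h0 h1 hρ]
    have : ((2 : ℝ) : EReal) - ((1 : ℝ) : EReal) = ((2 - 1 : ℝ) : EReal) :=
      (EReal.coe_sub 2 1).symm
    norm_num at this ⊢
    exact this
  rw [K, iInf_congr h, iInf_const]

theorem result (ρ : ℝ) (h0 : 0 < ρ) (h1 : ρ < 1 / 2) :
    K ρ = 1 ∧
    (∀ f : ℂ → ℂ, Differentiable ℂ f → order f = (ρ : EReal) → ∀ a : ℂ,
      limsup (fun r : ℝ => (((logCounting f (a : WithTop ℂ) r + logCounting f ⊤ r) /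
        characteristic f ⊤ r : ℝ) : EReal)) atTop = K ρ) ∧
    ∃ f : ℂ → ℂ, Differentiable ℂ f ∧ order f = (ρ : EReal) ∧ lowerOrder f = 0 := by
  refine ⟨K_eq h0 h1, fun f hf hρ a => ?_, ff ρ, ff_differentiable h0, order_ff h0,
    lowerOrder_ff h0⟩
  rw [K_eq h0 h1, logCounting_top_eq hf]
  simpa using limsup_N hf h0 h1 hρ a

end Pool.Agent.Results.MP_f2c8f8_an.EqualityWithoutRegularGrowth
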