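import Pool.Agent.PfB.Final

/-!
# Pfluger's conjecture and the constant `K(ρ)` for orders slightly below an integer

`T(r,f) = characteristic f ⊤ r`, `N(r,a) = logCounting f a r` (`⊤` is the value infinity), `K ρ` is
the infimum of `2 - ∑ δ(a,f)` over the entire functions of order `ρ`.

For every integer `p ≥ 2` there is `δ > 0` such that for `p - δ < ρ < p`

* `K ρ = |sin (π ρ)| / p`, the value conjectured by Edrei and Fuchs;
* `limsup (N(r,a) + N(r,b)) / T(r,f) ≥ K ρ` for all meromorphic functions with lower order `≤ ρ` and
  order `≥ ρ`, in particular for all meromorphic functions of order `ρ`, and all `a ≠ b`.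

Proof.  At Pólya peaks `log |f - a| - log |f - b|` is, up to small errors, the potential of genus `p - 1`
of finitely many zeros and poles on the logarithmic scale, whose integrated counting function is at most
`exp (ρ x)`.  For `ρ = p - η` the `p`-th harmonic dominates (its weight is of order `1 / η`).  The `L¹`
norm of the potential is the pairing with a test function that has `2p` sign changes near the zeros
`θ_j` of `cos (p θ)`, at `θ_j + τ_j` with `τ_j = O(η)`.  The value is, up to `o(η)`, the main term minus
nonnegative defects plus a quadratic expression in `τ`, which by the positivity of the finite Fourier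
coefficients of the kernel on the grid is maximal for all zeros on a ray.  If the value is within `o(η)`
of the maximum then `τ` is close to the shifts of the extremal function `cos (ρ θ)`, and there a
comparison mass by mass shows the exact inequality.
-/

set_option autoImplicit false

open Filter ValueDistribution Pool.Agent.H9.Pf Pool.Agent.PfB

namespace Pool.Agent.Results.MP_f2c8f8_an.ExactBelowIntegers

theorem result : ∀ p : ℕ, 2 ≤ p → ∃ δ : ℝ, 0 < δ ∧ ∀ ρ : ℝ, (p : ℝ) - δ < ρ → ρ < p →
    K ρ = ((|Real.sin (Real.pi * ρ)| / p : ℝ) : EReal) ∧
    ∀ f : ℂ → ℂ, Meromorphic f → lowerOrder f ≤ (ρ : EReal) → (ρ : EReal) ≤ order f →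
      ∀ a b : WithTop ℂ, a ≠ b →
        K ρ ≤ limsup (fun r : ℝ => (((logCounting f a r + logCounting f b r) /
          characteristic f ⊤ r : ℝ) : EReal)) atTop := by
  intro p hp
  obtain ⟨δ, hδ, _, h⟩ := final hp
  exact ⟨δ, hδ, h⟩

end Pool.Agent.Results.MP_f2c8f8_an.ExactBelowIntegers
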