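import Pool.Agent.PfB.Final

/-!
# Equality in Pfluger's inequality implies regular growth, for orders slightly below an integer

`T(r,f) = characteristic f ⊤ r`, `N(r,a) = logCounting f a r` (`⊤` is the value infinity), `K ρ` is
the infimum of `2 - ∑ δ(a,f)` over the entire functions of order `ρ`.

For every integer `p ≥ 2` there is `δ > 0` such that for `p - δ < ρ < p`: if `f` is meromorphic of order
`ρ`, `a ≠ b` and `limsup (N(r,a) + N(r,b)) / T(r,f) = K ρ`, then the lower order of `f` is `ρ`.

Proof.  The inequality `limsup (N(r,a) + N(r,b)) / T(r,f) ≥ |sin (π t)| / p` holds for every `t` between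
the lower order and the order with `p - δ < t < p`; its right side is strictly decreasing in `t`, and
`K ρ = |sin (π ρ)| / p`.
-/

set_option autoImplicit false

open Filter ValueDistribution Pool.Agent.H9.Pf Pool.Agent.PfB

namespace Pool.Agent.Results.MP_f2c8f8_an.RegularGrowthBelowIntegers

theorem result : ∀ p : ℕ, 2 ≤ p → ∃ δ : ℝ, 0 < δ ∧ ∀ ρ : ℝ, (p : ℝ) - δ < ρ → ρ < p →
    ∀ f : ℂ → ℂ, Meromorphic f → order f = (ρ : EReal) → ∀ a b : WithTop ℂ, a ≠ b →
      limsup (fun r : ℝ => (((logCounting f a r + logCounting f b r) /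
          characteristic f ⊤ r : ℝ) : EReal)) atTop = K ρ →
      lowerOrder f = (ρ : EReal) := fun _ hp => final2 hp

end Pool.Agent.Results.MP_f2c8f8_an.RegularGrowthBelowIntegers
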